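import Pool.Agent.H240.GU.Def6
import Pool.Agent.H618.GU.ErgU
import Pool.Graph.R_seed8.Y46.EG.Germ

/-!
# EV-6: ergodicity of the geodesic flow with a holomorphic collar (`StErgG`)
-/

set_option autoImplicit false
set_option linter.unusedSectionVars false

open Set Filter Topology MeasureTheory
open scoped ContDiff ComplexConjugate Real

noncomputable section

namespace Pool.Agent.H83.EV

open Pool.Agent.Y262.EG Pool.Agent.Y262.EX Pool.Agent.H240.SG Pool.Agent.H240.CG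
open Pool.Agent.H240.AL Pool.Agent.H240.GU Pool.Agent.H240.GV Pool.Agent.H240.EV
open Pool.Agent.Y868.EX

/-! ### conformal invariance -/

/-- the Laplacian of the composition with a holomorphic map (helper274) -/
lemma lap_comp {Ω S : Set ℂ} {g : ℂ → ℝ} {γ : ℂ → ℂ} (hO : IsOpen Ω) (hg : ContDiffOn ℝ ∞ g Ω)
    (hS : IsOpen S) (hγ : DifferentiableOn ℂ γ S) (hm : ∀ ζ ∈ S, γ ζ ∈ Ω) {ζ : ℂ} (hζ : ζ ∈ S) :
    px (px fun ξ => g (γ ξ)) ζ + py (py fun ξ => g (γ ξ)) ζ =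
      ‖deriv γ ζ‖ ^ 2 * (px (px g) (γ ζ) + py (py g) (γ ζ)) := by
  have hd : ∀ ξ ∈ S, HasDerivAt γ (deriv γ ξ) ξ ∧
      HasDerivAt (deriv γ) (deriv (deriv γ) ξ) ξ := fun ξ hξ =>
    ⟨(hγ.differentiableAt (hS.mem_nhds hξ)).hasDerivAt,
      ((hγ.deriv hS).differentiableAt (hS.mem_nhds hξ)).hasDerivAt⟩
  obtain ⟨hg1, hg2⟩ := hd ζ hζ
  obtain ⟨-, hdx, hdy⟩ := Pool.Agent.Y46.EG.dpx hO hg (hm ζ hζ)
  have hcx := Pool.Agent.Y46.EG.comp_deriv hdx hg1
  have hcy := Pool.Agent.Y46.EG.comp_deriv hdy hg1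
  obtain ⟨⟨hra, hia⟩, ⟨ha1, ha2⟩, ⟨hb1, hb2⟩⟩ := Pool.Agent.Y46.EG.re_im_deriv hg2
  have hevx : px (fun ξ => g (γ ξ)) =ᶠ[𝓝 ζ] fun ξ =>
      (deriv γ ξ).re * px g (γ ξ) + (deriv γ ξ).im * py g (γ ξ) := by
    filter_upwards [hS.mem_nhds hζ] with ξ hξ
    exact (Pool.Agent.Y46.EG.comp_deriv (Pool.Agent.Y46.EG.dpx hO hg (hm ξ hξ)).1 (hd ξ hξ).1).1
  have hevy : py (fun ξ => g (γ ξ)) =ᶠ[𝓝 ζ] fun ξ =>
      -(deriv γ ξ).im * px g (γ ξ) + (deriv γ ξ).re * py g (γ ξ) := by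
    filter_upwards [hS.mem_nhds hζ] with ξ hξ
    exact (Pool.Agent.Y46.EG.comp_deriv (Pool.Agent.Y46.EG.dpx hO hg (hm ξ hξ)).1 (hd ξ hξ).1).2
  have hA : DifferentiableAt ℝ (fun ξ => px g (γ ξ)) ζ :=
    hdx.comp ζ (hg1.differentiableAt.restrictScalars ℝ)
  have hB : DifferentiableAt ℝ (fun ξ => py g (γ ξ)) ζ :=
    hdy.comp ζ (hg1.differentiableAt.restrictScalars ℝ)
  have h1 : px (px fun ξ => g (γ ξ)) ζ = ((deriv γ ζ).re * px (fun ξ => px g (γ ξ)) ζ +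
      px g (γ ζ) * px (fun ξ => (deriv γ ξ).re) ζ) +
      ((deriv γ ζ).im * px (fun ξ => py g (γ ξ)) ζ +
      py g (γ ζ) * px (fun ξ => (deriv γ ξ).im) ζ) := by
    have hf : HasFDerivAt (fun ξ => (deriv γ ξ).re * px g (γ ξ) + (deriv γ ξ).im * py g (γ ξ))
        _ ζ :=
      (hra.differentiableAt.hasFDerivAt.mul hA.hasFDerivAt).add
        (hia.differentiableAt.hasFDerivAt.mul hB.hasFDerivAt)
    unfold px at hf ⊢
    unfold px at hevx
    rw [hevx.fderiv_eq, hf.fderiv]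
    simp
  have h2 : py (py fun ξ => g (γ ξ)) ζ = (-(deriv γ ζ).im * py (fun ξ => px g (γ ξ)) ζ -
      px g (γ ζ) * py (fun ξ => (deriv γ ξ).im) ζ) +
      ((deriv γ ζ).re * py (fun ξ => py g (γ ξ)) ζ +
      py g (γ ζ) * py (fun ξ => (deriv γ ξ).re) ζ) := by
    have hf : HasFDerivAt (fun ξ => -(deriv γ ξ).im * px g (γ ξ) + (deriv γ ξ).re * py g (γ ξ))
        _ ζ :=
      (hia.differentiableAt.hasFDerivAt.neg.mul hA.hasFDerivAt).add
        (hra.differentiableAt.hasFDerivAt.mul hB.hasFDerivAt)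
    unfold py at hf ⊢
    unfold py at hevy
    rw [hevy.fderiv_eq, hf.fderiv]
    simp
    ring
  have hn : ‖deriv γ ζ‖ ^ 2 = (deriv γ ζ).re ^ 2 + (deriv γ ζ).im ^ 2 := by
    rw [← Complex.normSq_eq_norm_sq, Complex.normSq_apply]; ring
  rw [hn, h1, h2, hcx.1, hcx.2, hcy.1, hcy.2, ha1, ha2, hb1, hb2]
  ring

lemma px_ev {g g' : ℂ → ℝ} {z : ℂ} (h : g =ᶠ[𝓝 z] g') : px g =ᶠ[𝓝 z] px g' := by
  filter_upwards [h.eventuallyEq_nhds] with ξ hξ
  unfold px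
  rw [hξ.fderiv_eq]

lemma py_ev {g g' : ℂ → ℝ} {z : ℂ} (h : g =ᶠ[𝓝 z] g') : py g =ᶠ[𝓝 z] py g' := by
  filter_upwards [h.eventuallyEq_nhds] with ξ hξ
  unfold py
  rw [hξ.fderiv_eq]

lemma lap_ev {g g' : ℂ → ℝ} {z : ℂ} (h : g =ᶠ[𝓝 z] g') :
    px (px g) z + py (py g) z = px (px g') z + py (py g') z := by
  rw [(px_ev (px_ev h)).eq_of_nhds, (py_ev (py_ev h)).eq_of_nhds]

lemma curv_ev {g g' : ℂ → ℝ} {z : ℂ} (h : g =ᶠ[𝓝 z] g') : curv g z = curv g' z := by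
  unfold curv
  rw [lap_ev h, h.eq_of_nhds]

/-- the Laplacian of a sum -/
lemma lap_add {S : Set ℂ} {f h : ℂ → ℝ} (hS : IsOpen S) (hf : ContDiffOn ℝ ∞ f S)
    (hh : ContDiffOn ℝ ∞ h S) {z : ℂ} (hz : z ∈ S) :
    px (px fun ξ => f ξ + h ξ) z + py (py fun ξ => f ξ + h ξ) z =
      (px (px f) z + py (py f) z) + (px (px h) z + py (py h) z) := by
  have h1 : px (fun ξ => f ξ + h ξ) =ᶠ[𝓝 z] fun ξ => px f ξ + px h ξ := by
    filter_upwards [hS.mem_nhds hz] with ξ hξ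
    have a := (Pool.Agent.Y46.EG.dpx hS hf hξ).1.hasFDerivAt.add
      (Pool.Agent.Y46.EG.dpx hS hh hξ).1.hasFDerivAt
    have a' : fderiv ℝ (fun ξ => f ξ + h ξ) ξ = _ := a.fderiv
    unfold px
    rw [a']
    rfl
  have h2 : py (fun ξ => f ξ + h ξ) =ᶠ[𝓝 z] fun ξ => py f ξ + py h ξ := by
    filter_upwards [hS.mem_nhds hz] with ξ hξ
    have a := (Pool.Agent.Y46.EG.dpx hS hf hξ).1.hasFDerivAt.add
      (Pool.Agent.Y46.EG.dpx hS hh hξ).1.hasFDerivAt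
    have a' : fderiv ℝ (fun ξ => f ξ + h ξ) ξ = _ := a.fderiv
    unfold py
    rw [a']
    rfl
  obtain ⟨-, f1, f2⟩ := Pool.Agent.Y46.EG.dpx hS hf hz
  obtain ⟨-, g1, g2⟩ := Pool.Agent.Y46.EG.dpx hS hh hz
  have h3 : px (px fun ξ => f ξ + h ξ) z = px (px f) z + px (px h) z := by
    have a' : fderiv ℝ (fun ξ => px f ξ + px h ξ) z = _ := (f1.hasFDerivAt.add g1.hasFDerivAt).fderiv
    rw [(px_ev h1).eq_of_nhds]
    unfold px at a' ⊢
    rw [a']
    rfl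
  have h4 : py (py fun ξ => f ξ + h ξ) z = py (py f) z + py (py h) z := by
    have a' : fderiv ℝ (fun ξ => py f ξ + py h ξ) z = _ := (f2.hasFDerivAt.add g2.hasFDerivAt).fderiv
    rw [(py_ev h2).eq_of_nhds]
    unfold py at a' ⊢
    rw [a']
    rfl
  rw [h3, h4]
  ring

/-- the Laplacian of the real part of a holomorphic function -/
lemma lap_re {S : Set ℂ} {ℓ : ℂ → ℂ} (hS : IsOpen S) (hℓ : DifferentiableOn ℂ ℓ S) {z : ℂ}
    (hz : z ∈ S) : px (px fun ξ => (ℓ ξ).re) z + py (py fun ξ => (ℓ ξ).re) z = 0 := by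
  have h0 : ContDiffOn ℝ ∞ (fun w : ℂ => w.re) univ := Complex.reCLM.contDiff.contDiffOn
  have h1 := lap_comp isOpen_univ h0 hS hℓ (fun _ _ => mem_univ _) hz
  have hx : px (fun w : ℂ => w.re) = fun _ => 1 := by
    funext w
    have : HasFDerivAt (fun w : ℂ => w.re) Complex.reCLM w := Complex.reCLM.hasFDerivAt
    unfold px
    rw [this.fderiv]
    simp
  have hy : py (fun w : ℂ => w.re) = fun _ => 0 := by
    funext w
    have : HasFDerivAt (fun w : ℂ => w.re) Complex.reCLM w := Complex.reCLM.hasFDerivAt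
    unfold py
    rw [this.fderiv]
    simp
  have hx2 : px (fun _ : ℂ => (1 : ℝ)) (ℓ z) = 0 := by
    unfold px
    simp
  have hy2 : py (fun _ : ℂ => (0 : ℝ)) (ℓ z) = 0 := by
    unfold py
    simp
  rw [hx, hy, hx2, hy2, add_zero, mul_zero] at h1
  exact h1

section

variable {Ω S : Set ℂ} {φ : ℂ → ℝ} {Γ ℓ : ℂ → ℂ}

lemma norm_d (he : ∀ z ∈ S, Complex.exp (ℓ z) = deriv Γ z) {z : ℂ} (hz : z ∈ S) :
    ‖deriv Γ z‖ = Real.exp (ℓ z).re := by
  rw [← he z hz, Complex.norm_exp]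

lemma pb_eq (he : ∀ z ∈ S, Complex.exp (ℓ z) = deriv Γ z) {z : ℂ} (hz : z ∈ S) :
    Pb φ Γ z = φ (Γ z) + (ℓ z).re := by
  unfold Pb
  rw [norm_d he hz, Real.log_exp]

/-- the curvature is a conformal invariant -/
lemma curv_pb (hO : IsOpen Ω) (hφ : ContDiffOn ℝ ∞ φ Ω) (hS : IsOpen S)
    (hΓ : DifferentiableOn ℂ Γ S) (hm : ∀ z ∈ S, Γ z ∈ Ω) (hℓ : DifferentiableOn ℂ ℓ S)
    (he : ∀ z ∈ S, Complex.exp (ℓ z) = deriv Γ z) {z : ℂ} (hz : z ∈ S) :
    curv (Pb φ Γ) z = curv φ (Γ z) := by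
  have hev : Pb φ Γ =ᶠ[𝓝 z] fun ξ => φ (Γ ξ) + (ℓ ξ).re := by
    filter_upwards [hS.mem_nhds hz] with ξ hξ using pb_eq he hξ
  have hΓs : ContDiffOn ℝ ∞ Γ S := (hΓ.contDiffOn (n := ∞) hS).restrict_scalars ℝ
  have hℓs : ContDiffOn ℝ ∞ ℓ S := (hℓ.contDiffOn (n := ∞) hS).restrict_scalars ℝ
  have hf : ContDiffOn ℝ ∞ (fun ξ => φ (Γ ξ)) S := hφ.comp hΓs hm
  have hh : ContDiffOn ℝ ∞ (fun ξ => (ℓ ξ).re) S := Complex.reCLM.contDiff.comp_contDiffOn hℓs
  rw [curv_ev hev]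
  unfold curv
  rw [lap_add hS hf hh hz, lap_re hS hℓ hz, lap_comp hO hφ hS hΓ hm hz, norm_d he hz, add_zero]
  have e : Real.exp (-2 * (φ (Γ z) + (ℓ z).re)) * Real.exp (ℓ z).re ^ 2 =
      Real.exp (-2 * φ (Γ z)) := by
    rw [← Real.exp_nat_mul, ← Real.exp_add]
    congr 1
    push_cast
    ring
  rw [← e]
  ring

/-- the norm of the derivative of the curvature -/
lemma fder_pb (hO : IsOpen Ω) (hφ : ContDiffOn ℝ ∞ φ Ω) (hcs : ContDiffOn ℝ ∞ (curv φ) Ω)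
    (hS : IsOpen S) (hΓ : DifferentiableOn ℂ Γ S) (hm : ∀ z ∈ S, Γ z ∈ Ω)
    (hℓ : DifferentiableOn ℂ ℓ S) (he : ∀ z ∈ S, Complex.exp (ℓ z) = deriv Γ z) {z : ℂ}
    (hz : z ∈ S) : Real.exp (-φ (Γ z)) * ‖fderiv ℝ (curv φ) (Γ z)‖ ≤
      Real.exp (-Pb φ Γ z) * ‖fderiv ℝ (curv (Pb φ Γ)) z‖ := by
  have hev : curv (Pb φ Γ) =ᶠ[𝓝 z] fun ξ => curv φ (Γ ξ) := by
    filter_upwards [hS.mem_nhds hz] with ξ hξ using curv_pb hO hφ hS hΓ hm hℓ he hξ
  have hd : HasDerivAt Γ (deriv Γ z) z := (hΓ.differentiableAt (hS.mem_nhds hz)).hasDerivAt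
  have hd2 : HasFDerivAt Γ ((ContinuousLinearMap.toSpanSingleton ℂ (deriv Γ z)).restrictScalars ℝ)
      z := hd.hasFDerivAt.restrictScalars ℝ
  have hK : DifferentiableAt ℝ (curv φ) (Γ z) :=
    (hcs.contDiffAt (hO.mem_nhds (hm z hz))).differentiableAt (by simp)
  have hc : fderiv ℝ (fun ξ => curv φ (Γ ξ)) z = (fderiv ℝ (curv φ) (Γ z)).comp
      ((ContinuousLinearMap.toSpanSingleton ℂ (deriv Γ z)).restrictScalars ℝ) :=
    (hK.hasFDerivAt.comp z hd2).fderiv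
  have hne : deriv Γ z ≠ 0 := by
    rw [← he z hz]
    exact Complex.exp_ne_zero _
  have hpos : 0 < ‖deriv Γ z‖ := norm_pos_iff.2 hne
  have hb : ‖fderiv ℝ (curv φ) (Γ z)‖ ≤ ‖fderiv ℝ (curv (Pb φ Γ)) z‖ * ‖deriv Γ z‖⁻¹ := by
    refine ContinuousLinearMap.opNorm_le_bound _ (by positivity) fun v => ?_
    have h1 : fderiv ℝ (curv φ) (Γ z) v = fderiv ℝ (curv (Pb φ Γ)) z ((deriv Γ z)⁻¹ * v) := by
      rw [hev.fderiv_eq, hc]
      show _ = fderiv ℝ (curv φ) (Γ z) (((deriv Γ z)⁻¹ * v) * deriv Γ z)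
      congr 1
      field_simp
    rw [h1]
    refine (ContinuousLinearMap.le_opNorm _ _).trans (le_of_eq ?_)
    rw [norm_mul, norm_inv]
    ring
  have he' : Real.exp (-Pb φ Γ z) = Real.exp (-φ (Γ z)) * ‖deriv Γ z‖⁻¹ := by
    rw [pb_eq he hz, norm_d he hz, ← Real.exp_neg, ← Real.exp_add]
    congr 1
    ring
  rw [he']
  have h0 := Real.exp_pos (-φ (Γ z))
  calc Real.exp (-φ (Γ z)) * ‖fderiv ℝ (curv φ) (Γ z)‖ ≤
      Real.exp (-φ (Γ z)) * (‖fderiv ℝ (curv (Pb φ Γ)) z‖ * ‖deriv Γ z‖⁻¹) :=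
        mul_le_mul_of_nonneg_left hb h0.le
    _ = _ := by ring

end

/-! ### a rotationally symmetric metric in a strip -/

theorem curv_sym {Φ : ℂ → ℝ} {r : ℝ} {G : ℝ → ℝ} (hG : ContDiff ℝ ∞ G)
    (hφ : ∀ z : ℂ, |z.re| < r → Φ z = G z.re) {z : ℂ} (hz : |z.re| < r) :
    curv Φ z = -(Real.exp (-2 * G z.re) * deriv (deriv G) z.re) := by
  have hSr : IsOpen {z : ℂ | |z.re| < r} := isOpen_lt (by fun_prop) continuous_const
  have hG1s : ContDiff ℝ ∞ (deriv G) := (contDiff_infty_iff_deriv.1 hG).2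
  exact Pool.Agent.Y993.EX.curv_re (φ := Φ) (h := G) (z := z) (by
        filter_upwards [hSr.mem_nhds hz] with w hw
        exact hφ w hw) (Eventually.of_forall fun x => hG.differentiable (by simp) x)
        ((hG1s.differentiable (by simp)) z.re)

theorem col_sym {Φ : ℂ → ℝ} {r C : ℝ} {G : ℝ → ℝ} (hr : 0 < r) (hG : ContDiff ℝ ∞ G)
    (hφ : ∀ z : ℂ, |z.re| < r → Φ z = G z.re) (hcvx : ∀ t : ℝ, |t| < r → 0 ≤ deriv (deriv G) t)
    (hder : ∀ t : ℝ, |t| < r → |iteratedDeriv 3 G t| ≤ C * (iteratedDeriv 2 G t) ^ (39 / 40 : ℝ)) :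
    ∃ C1 : ℝ, 0 ≤ C1 ∧ ∀ z : ℂ, |z.re| < r / 4 →
      Real.exp (-Φ z) * ‖fderiv ℝ (curv Φ) z‖ ≤ C1 * |curv Φ z| ^ (39 / 40 : ℝ) := by
  have hSr : IsOpen {z : ℂ | |z.re| < r} := isOpen_lt (by fun_prop) continuous_const
  have hGd : ∀ t, DifferentiableAt ℝ G t := fun t => (hG.differentiable (by simp)) t
  have hG1s : ContDiff ℝ ∞ (deriv G) := (contDiff_infty_iff_deriv.1 hG).2
  have hG2s : ContDiff ℝ ∞ (deriv (deriv G)) := (contDiff_infty_iff_deriv.1 hG1s).2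
  have hder' : ∀ t : ℝ, |t| < r → |deriv (deriv (deriv G)) t| ≤
      C * (deriv (deriv G) t) ^ (39 / 40 : ℝ) := by
    intro t ht
    have h1 := hder t ht
    have e2 : iteratedDeriv 2 G = deriv (deriv G) := by
      rw [iteratedDeriv_succ, iteratedDeriv_one]
    have e3 : iteratedDeriv 3 G = deriv (deriv (deriv G)) := by
      rw [iteratedDeriv_succ, e2]
    rwa [e2, e3] at h1
  have hcpt : IsCompact (Icc (-(r / 4)) (r / 4)) := isCompact_Icc
  obtain ⟨B0, hB0⟩ := hcpt.exists_bound_of_continuousOn hG.continuous.continuousOn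
  obtain ⟨B1, hB1⟩ := hcpt.exists_bound_of_continuousOn hG1s.continuous.continuousOn
  obtain ⟨B2, hB2⟩ := hcpt.exists_bound_of_continuousOn hG2s.continuous.continuousOn
  set B : ℝ := max 1 (max B0 (max B1 B2)) with hB
  have hb1 : 1 ≤ B := le_max_left _ _
  have hb0 : B0 ≤ B := (le_max_left _ _).trans (le_max_right _ _)
  have hb1' : B1 ≤ B := (le_max_left _ _).trans ((le_max_right _ _).trans (le_max_right _ _))
  have hb2 : B2 ≤ B := (le_max_right _ _).trans ((le_max_right _ _).trans (le_max_right _ _))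
  refine ⟨Real.exp (3 * B) * (2 * B * B ^ (1 / 40 : ℝ) + |C|) *
    (Real.exp (-2 * B) ^ (39 / 40 : ℝ))⁻¹, by positivity, ?_⟩
  intro z hz
  have hzr : |z.re| < r := by linarith
  have hzI : z.re ∈ Icc (-(r / 4)) (r / 4) := by
    have := abs_lt.1 hz
    exact ⟨this.1.le, this.2.le⟩
  have e1 : HasDerivAt G (deriv G z.re) z.re := (hGd z.re).hasDerivAt
  have e3 : HasDerivAt (deriv (deriv G)) (deriv (deriv (deriv G)) z.re) z.re :=
    ((hG2s.differentiable (by simp)) z.re).hasDerivAt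
  have hK : HasDerivAt (fun x => -(Real.exp (-2 * G x) * deriv (deriv G) x))
      (Real.exp (-2 * G z.re) * (2 * deriv G z.re * deriv (deriv G) z.re -
        deriv (deriv (deriv G)) z.re)) z.re := by
    have h1 := (((e1.const_mul (-2)).exp).mul e3).neg
    refine h1.congr_deriv ?_
    ring
  have hev : curv Φ =ᶠ[𝓝 z] fun w =>
      (fun x => -(Real.exp (-2 * G x) * deriv (deriv G) x)) w.re := by
    filter_upwards [hSr.mem_nhds hzr] with w hw
    exact curv_sym hG hφ hw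
  rw [fderiv_re _ _ z _ hK hev, curv_sym hG hφ hzr, hφ z hzr]
  have k0 := (hB0 _ hzI).trans hb0
  have k1 := (hB1 _ hzI).trans hb1'
  have k2 := (hB2 _ hzI).trans hb2
  rw [Real.norm_eq_abs] at k0 k1 k2
  exact est _ _ _ _ B C hb1 k0 k1 (hcvx _ hzr) ((le_abs_self _).trans k2) (hder' _ hzr)

/-- the image of an open set under a holomorphic map without critical points is open -/
lemma open_image {U : Set ℂ} {Γ : ℂ → ℂ} (hU : IsOpen U) (hΓ : DifferentiableOn ℂ Γ U)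
    (h0 : ∀ z ∈ U, deriv Γ z ≠ 0) : IsOpen (Γ '' U) := by
  rw [isOpen_iff_mem_nhds]
  rintro _ ⟨z, hz, rfl⟩
  have h1 : ContDiffAt ℂ 1 Γ z :=
    ((hΓ.contDiffOn (n := 1) hU).contDiffAt (hU.mem_nhds hz))
  have h2 : HasStrictDerivAt Γ (deriv Γ z) z :=
    h1.hasStrictDerivAt' (hΓ.differentiableAt (hU.mem_nhds hz)).hasDerivAt (by norm_num)
  rw [← h2.map_nhds_eq (h0 z hz)]
  exact image_mem_map (hU.mem_nhds hz)

/-- `EV-6` -/
theorem stErgG (h1 : StLg) (h2 : StErg3) : StErgG := by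
  intro M P _ _ _ _ _ _ Ω φ pr q m Fl Γ r C G hUT hLi hGe hCg hconn hG hφ hG0 hG1 hneg hzero hder
  have hr := hCg.δp
  have hSx : ∀ z : ℂ, z ∈ Sx 0 r ↔ |z.re| < r := by
    intro z
    show |z.re - 0| < r ↔ |z.re| < r
    rw [sub_zero]
  have hSxo : IsOpen (Sx 0 r) := isOpen_lt (by fun_prop) continuous_const
  have hcv : Convex ℝ (Sx 0 r) := by
    have e : Sx 0 r = Complex.reCLM ⁻¹' (Ioo (-r) r) := by
      ext z
      rw [hSx, abs_lt]
      rfl
    rw [e]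
    exact (convex_Ioo _ _).affine_preimage Complex.reCLM.toLinearMap.toAffineMap
  obtain ⟨ℓ, hℓ, he⟩ := h1 Γ (Sx 0 r) hSxo hcv hCg.hol hCg.d0
  have hInv := tInv M P Ω φ pr q hUT
  have hcs : ContDiffOn ℝ ∞ (curv φ) Ω := (tFrame Ω φ hUT.opn hUT.smooth).2.2.1
  have hcp : ∀ z ∈ Sx 0 r, curv (Pb φ Γ) z = curv φ (Γ z) := fun z hz =>
    curv_pb hUT.opn hUT.smooth hSxo hCg.hol hCg.maps hℓ he hz
  -- the open set
  set U : Set ℂ := {z : ℂ | |z.re| < r / 4} with hU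
  have hUo : IsOpen U := isOpen_lt (by fun_prop) continuous_const
  have hUs : U ⊆ Sx 0 r := fun z hz => (hSx z).2 (by
    have : |z.re| < r / 4 := hz
    linarith)
  have hSo : IsOpen (Γ '' U) := open_image hUo (hCg.hol.mono hUs) fun z hz => hCg.d0 z (hUs hz)
  have hSO : Γ '' U ⊆ Ω := by
    rintro _ ⟨z, hz, rfl⟩
    exact hCg.maps z (hUs hz)
  -- the bound of the curvature
  obtain ⟨κ, hκ, hlow⟩ : ∃ κ : ℝ, 0 < κ ∧ ∀ z ∈ Ω, -κ < curv φ z →
      ∃ w : ℂ, |w.re| < r / 4 ∧ pr (Γ w) = pr z := by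
    obtain ⟨n, hn⟩ := Pool.Agent.H618.GU.EU.cov hUT hcs.continuousOn hSo hSO
      (fun n => -(1 / ((n : ℝ) + 1))) (by
        intro n n' hn
        have h1 : (n : ℝ) ≤ n' := by exact_mod_cast hn
        have h2 : 1 / ((n' : ℝ) + 1) ≤ 1 / ((n : ℝ) + 1) :=
          one_div_le_one_div_of_le (by positivity) (by linarith)
        show -(1 / ((n : ℝ) + 1)) ≤ -(1 / ((n' : ℝ) + 1))
        linarith) (fun z hz => by
        rcases (hneg z hz).lt_or_eq with h1 | h1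
        · obtain ⟨n, hn⟩ := exists_nat_one_div_lt (show 0 < -curv φ z by linarith)
          exact Or.inl ⟨n, by
            show curv φ z < -(1 / ((n : ℝ) + 1))
            linarith⟩
        · obtain ⟨w, hw, hwz⟩ := hzero z hz h1
          refine Or.inr ⟨Γ w, ⟨w, ?_, rfl⟩, hwz⟩
          show |w.re| < r / 4
          rw [hw, abs_zero]
          linarith)
    refine ⟨1 / ((n : ℝ) + 1), by positivity, fun z hz hlt => ?_⟩
    rcases hn z hz with ⟨w, hw, hwz, hwl⟩ | ⟨w, ⟨v, hv, rfl⟩, hwz⟩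
    · exfalso
      have h1 := (hInv w hw z hz hwz).1
      have h2 : curv φ w < -(1 / ((n : ℝ) + 1)) := hwl
      linarith
    · exact ⟨v, hv, hwz⟩
  -- the bound of the derivative
  have hcd : ContinuousOn (fun z => Real.exp (-φ z) * ‖fderiv ℝ (curv φ) z‖) Ω :=
    (Real.continuous_exp.comp_continuousOn hUT.smooth.continuousOn.neg).mul
      (hcs.continuousOn_fderiv_of_isOpen hUT.opn (by simp)).norm
  obtain ⟨B1, hB1⟩ : ∃ B1 : ℝ, ∀ z ∈ Ω, Real.exp (-φ z) * ‖fderiv ℝ (curv φ) z‖ ≤ B1 := by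
    obtain ⟨n, hn⟩ := Pool.Agent.H618.GU.EU.cov hUT hcd isOpen_empty (empty_subset _)
      (fun n => (n : ℝ))
      (fun n n' hn => by
        show (n : ℝ) ≤ n'
        exact_mod_cast hn) (fun z hz => Or.inl (exists_nat_gt _))
    refine ⟨n, fun z hz => ?_⟩
    rcases hn z hz with ⟨w, hw, hwz, hwl⟩ | ⟨w, hw, -⟩
    · rw [← (hInv w hw z hz hwz).2]
      exact le_of_lt hwl
    · exact absurd hw (notMem_empty _)
  -- the collar
  have hcvx : ∀ t : ℝ, |t| < r → 0 ≤ deriv (deriv G) t := by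
    intro t ht
    have h0 : |((t : ℝ) : ℂ).re| < r := by
      rw [Complex.ofReal_re]
      exact ht
    have h0' : (t : ℂ) ∈ Sx 0 r := (hSx _).2 h0
    have h1 := hneg _ (hCg.maps _ h0')
    rw [← hcp _ h0', curv_sym hG hφ h0, Complex.ofReal_re] at h1
    have h2 := Real.exp_pos (-2 * G t)
    by_contra hcon
    push Not at hcon
    have := mul_neg_of_pos_of_neg h2 hcon
    linarith
  obtain ⟨C1, hC1, hcol⟩ := col_sym hr hG hφ hcvx hder
  have hall : ∃ C' : ℝ, ∀ z ∈ Ω, Real.exp (-φ z) * ‖fderiv ℝ (curv φ) z‖ ≤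
      C' * |curv φ z| ^ (39 / 40 : ℝ) := by
    refine ⟨C1 + |B1| * (κ ^ (39 / 40 : ℝ))⁻¹, fun z hz => ?_⟩
    have hκ' : 0 < κ ^ (39 / 40 : ℝ) := Real.rpow_pos_of_pos hκ _
    have h0 : 0 ≤ |curv φ z| ^ (39 / 40 : ℝ) := Real.rpow_nonneg (abs_nonneg _) _
    by_cases hlt : -κ < curv φ z
    · obtain ⟨w, hw, hwz⟩ := hlow z hz hlt
      have hwS : w ∈ Sx 0 r := hUs hw
      have hwO : Γ w ∈ Ω := hCg.maps w hwS
      have h1 := hInv (Γ w) hwO z hz hwz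
      rw [← h1.2, ← h1.1]
      refine (fder_pb hUT.opn hUT.smooth hcs hSxo hCg.hol hCg.maps hℓ he hwS).trans ?_
      refine (hcol w hw).trans ?_
      rw [hcp w hwS, h1.1]
      refine mul_le_mul_of_nonneg_right ?_ h0
      have : 0 ≤ |B1| * (κ ^ (39 / 40 : ℝ))⁻¹ := by positivity
      linarith
    · push Not at hlt
      have h1 : κ ≤ |curv φ z| := by
        rw [abs_of_nonpos (hneg z hz)]
        linarith
      have h2 : κ ^ (39 / 40 : ℝ) ≤ |curv φ z| ^ (39 / 40 : ℝ) :=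
        Real.rpow_le_rpow hκ.le h1 (by norm_num)
      calc Real.exp (-φ z) * ‖fderiv ℝ (curv φ) z‖ ≤ B1 := hB1 z hz
        _ ≤ |B1| := le_abs_self _
        _ = |B1| * (κ ^ (39 / 40 : ℝ))⁻¹ * κ ^ (39 / 40 : ℝ) := by
          rw [mul_assoc, inv_mul_cancel₀ hκ'.ne', mul_one]
        _ ≤ |B1| * (κ ^ (39 / 40 : ℝ))⁻¹ * |curv φ z| ^ (39 / 40 : ℝ) :=
          mul_le_mul_of_nonneg_left h2 (by positivity)
        _ ≤ (C1 + |B1| * (κ ^ (39 / 40 : ℝ))⁻¹) * |curv φ z| ^ (39 / 40 : ℝ) :=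
          mul_le_mul_of_nonneg_right (by linarith) h0
  obtain ⟨C', hC'⟩ := hall
  -- the class
  set c : ℂ := ((r / 2 : ℝ) : ℂ) with hc
  have hre : ∀ z : ℂ, (z - c).re = z.re - r / 2 := by
    intro z
    rw [Complex.sub_re, hc, Complex.ofReal_re]
  have hst : ∀ z ∈ Stp r (r / 2), z - c ∈ Sx 0 r := by
    intro z hz
    rw [hSx, hre, abs_lt]
    exact ⟨by linarith [hz.1], by linarith [hz.2]⟩
  have hder1 : ∀ z ∈ Stp r (r / 2), HasDerivAt (fun z => Γ (z - c)) (deriv Γ (z - c)) z := by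
    intro z hz
    have h1 : HasDerivAt Γ (deriv Γ (z - c)) (z - c) :=
      (hCg.hol.differentiableAt (hSxo.mem_nhds (hst z hz))).hasDerivAt
    exact h1.comp_sub_const z _
  have hcls : Cls3 Ω φ pr (fun z => Γ (z - c)) (fun z => ℓ (z - c)) r (r / 4) (r / 2) κ C' (r / 2)
      (fun x => G (x - r / 2)) := by
    refine ⟨hr, by linarith, by linarith, hκ, by linarith, by linarith, fun z hz =>
      (hder1 z hz).differentiableAt.differentiableWithinAt, fun z hz => hCg.maps _ (hst z hz),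
      fun z hz => ?_, fun z hz => ?_, fun z hz => ?_, ?_, ?_, ?_, fun z hz => ?_,
      fun z hz w hw he => ?_, hneg, fun z hz hlt => ?_, fun z hz h0 => ?_, hC', hconn⟩
    · have h1 : HasDerivAt ℓ (deriv ℓ (z - c)) (z - c) :=
        (hℓ.differentiableAt (hSxo.mem_nhds (hst z hz))).hasDerivAt
      exact (h1.comp_sub_const z _).differentiableAt.differentiableWithinAt
    · rw [(hder1 z hz).deriv]
      exact he _ (hst z hz)
    · show φ (Γ (z - c)) + (ℓ (z - c)).re = G (z.re - r / 2)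
      rw [← pb_eq he (hst z hz), hφ _ ((hSx _).1 (hst z hz)), hre]
    · exact (hG.comp (contDiff_id.sub contDiff_const)).contDiffOn
    · show G (r / 2 - r / 2) = 0
      rw [sub_self, hG0]
    · have e0 : HasDerivAt (fun y : ℝ => y - r / 2) 1 (r / 2) := (hasDerivAt_id _).sub_const _
      have h1 : HasDerivAt (fun y => G (y - r / 2)) (deriv G (r / 2 - r / 2) * 1) (r / 2) :=
        HasDerivAt.comp (h₂ := G) (h := fun y : ℝ => y - r / 2) (r / 2)
          ((hG.differentiable (by simp)) (r / 2 - r / 2)).hasDerivAt e0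
      rw [sub_self, hG1, zero_mul] at h1
      exact h1
    · show pr (Γ (z + 2 * Real.pi * Complex.I - c)) = pr (Γ (z - c))
      have h1 := hst z hz
      have h2 : z + 2 * Real.pi * Complex.I - c ∈ Sx 0 r := by
        have h3 : (z + 2 * Real.pi * Complex.I - c).re = (z - c).re := by simp
        rw [hSx, h3]
        exact (hSx _).1 h1
      symm
      refine (hCg.per _ h1 _ h2).2 ⟨1, ?_⟩
      push_cast
      ring
    · obtain ⟨n, hn⟩ := (hCg.per _ (hst z hz) _ (hst w hw)).1 he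
      refine ⟨n, ?_⟩
      have : w = (w - c) + c := by ring
      rw [this, hn]
      ring
    · obtain ⟨w, hw, hwz⟩ := hlow z hz hlt
      refine ⟨w + c, ?_, ?_⟩
      · have h1 := abs_lt.1 hw
        have h2 : (w + c).re = w.re + r / 2 := by
          rw [Complex.add_re, hc, Complex.ofReal_re]
        constructor
        · rw [h2]
          linarith [h1.1]
        · rw [h2]
          linarith [h1.2]
      · show pr (Γ (w + c - c)) = pr z
        rw [add_sub_cancel_right, hwz]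
    · obtain ⟨w, hw, hwz⟩ := hzero z hz h0
      refine ⟨w + c, ?_, ?_⟩
      · rw [Complex.add_re, hw, hc, Complex.ofReal_re, zero_add]
      · show pr (Γ (w + c - c)) = pr z
        rw [add_sub_cancel_right, hwz]
  exact h2 M P Ω φ pr q m Fl _ _ r (r / 4) (r / 2) κ C' (r / 2) _ hUT hLi hGe hcls

end Pool.Agent.H83.EV
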